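import Mathlib

/-!
For the primes `2, 3, 5` and every commutator word `u` that is trivial in `C_2 * C_3 * C_5`
(for example `u = 1`), the only alternating group `A_n`, `n ≥ 3`, generated by `ξ, η, ζ` with
`ξ ^ 2 = η ^ 3 = ζ ^ 5 = ξ η ζ u(ξ, η, ζ) = 1` is `A_5`.
-/

namespace Pool.Agent.Results.MP_73c65d_al.OnlyFive

/-- `n` is admissible for `p, q, r, u`: the alternating group of degree `n` is generated by elements
`ξ, η, ζ` with `ξ ^ p = η ^ q = ζ ^ r = ξ η ζ u(ξ, η, ζ) = 1`. -/
def Admissible (p q r : ℕ) (u : FreeGroup (Fin 3)) (n : ℕ) : Prop :=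
  ∃ ξ η ζ : alternatingGroup (Fin n), Subgroup.closure {ξ, η, ζ} = ⊤ ∧
    ξ ^ p = 1 ∧ η ^ q = 1 ∧ ζ ^ r = 1 ∧ ξ * η * ζ * FreeGroup.lift ![ξ, η, ζ] u = 1

section Bound

variable {G : Type*} [Group G]

/-- Same right coset. -/
def R (K : Subgroup G) (x y : G) : Prop := x * y⁻¹ ∈ K

theorem R.refl (K : Subgroup G) (x : G) : R K x x := by
  unfold R; rw [mul_inv_cancel]; exact K.one_mem

theorem R.of_eq (K : Subgroup G) {x y : G} (h : x = y) : R K x y := by
  rw [h]; exact R.refl K y

theorem R.symm {K : Subgroup G} {x y : G} (h : R K x y) : R K y x := by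
  unfold R at *
  have := K.inv_mem h
  rwa [mul_inv_rev, inv_inv] at this

theorem R.trans {K : Subgroup G} {x y z : G} (h : R K x y) (h' : R K y z) : R K x z := by
  unfold R at *
  have := K.mul_mem h h'
  rwa [mul_assoc, inv_mul_cancel_left] at this

theorem R.mul {K : Subgroup G} {x y : G} (h : R K x y) (g : G) : R K (x * g) (y * g) := by
  unfold R at *
  rwa [mul_inv_rev, mul_assoc, mul_inv_cancel_left]

/-- Representatives of the cosets of the subgroup generated by `a b`. -/
def rep (a b : G) : Fin 12 → G :=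
  ![1, a, b, b * a, b * a * b, b * a * b * b, b * a * b * a, b * a * b * a * b,
    b * a * b * a * b * b, b * a * b * a * b * b * a, b * a * b * a * b * b * a * b,
    b * a * b * a * b * b * a * b * b]

/-- Action of `a` on the cosets. -/
def ta : Fin 12 → Fin 12 := ![1, 0, 3, 2, 6, 7, 4, 5, 9, 8, 11, 10]

/-- Action of `b` on the cosets. -/
def tb : Fin 12 → Fin 12 := ![2, 0, 1, 4, 5, 3, 7, 8, 6, 10, 11, 9]

variable {a b : G}

theorem three_eq (h5 : (a * b) ^ 5 = 1) : (a * b) ^ 3 = (b⁻¹ * a⁻¹) * (b⁻¹ * a⁻¹) := by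
  have h : (a * b) ^ 3 * (a * b) ^ 2 = 1 := by rw [← pow_add]; exact h5
  have h' := eq_inv_of_mul_eq_one_left h
  rw [h', pow_two, mul_inv_rev, mul_inv_rev]

theorem aux_b (hb : b * b * b = 1) (i : Fin 12) :
    R (Subgroup.zpowers (a * b)) (rep a b i * b) (rep a b (tb i)) := by
  have hb' : ∀ x : G, x * b * b * b = x := fun x => by
    rw [mul_assoc, mul_assoc, ← mul_assoc b, hb, mul_one]
  have hbi : b⁻¹ = b * b := by
    rw [inv_eq_iff_mul_eq_one, ← mul_assoc, hb]
  have h1 : R (Subgroup.zpowers (a * b)) (a * b) 1 := by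
    unfold R; rw [inv_one, mul_one]; exact Subgroup.mem_zpowers _
  have h2 : R (Subgroup.zpowers (a * b)) (b * b) a := by
    have h := (h1.mul b⁻¹).symm
    rw [one_mul, mul_inv_cancel_right, hbi] at h
    exact h
  fin_cases i
  · exact R.of_eq _ (one_mul b)
  · exact h1
  · exact h2
  · exact R.refl _ _
  · exact R.refl _ _
  · exact R.of_eq _ (hb' _)
  · exact R.refl _ _
  · exact R.refl _ _
  · exact R.of_eq _ (hb' _)
  · exact R.refl _ _
  · exact R.refl _ _
  · exact R.of_eq _ (hb' _)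

theorem aux_a (ha : a * a = 1) (hb : b * b * b = 1) (h5 : (a * b) ^ 5 = 1) (i : Fin 12) :
    R (Subgroup.zpowers (a * b)) (rep a b i * a) (rep a b (ta i)) := by
  have ha' : ∀ x : G, x * a * a = x := fun x => by rw [mul_assoc, ha, mul_one]
  have hb' : ∀ x : G, x * b * b * b = x := fun x => by
    rw [mul_assoc, mul_assoc, ← mul_assoc b, hb, mul_one]
  have hai : a⁻¹ = a := by rw [inv_eq_iff_mul_eq_one, ha]
  have hbi : b⁻¹ = b * b := by
    rw [inv_eq_iff_mul_eq_one, ← mul_assoc, hb]
  have h3 := three_eq h5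
  -- b a b a b a = (a b) (b a b b)
  have e1 : b * a * b * a * b * a = (a * b) * (b * a * b * b) := by
    have : b * a * b * a * b * a = b * (a * b) ^ 3 * b⁻¹ := by
      simp only [pow_succ, pow_zero, one_mul, mul_assoc, mul_inv_cancel, mul_one]
    rw [this, h3, hai, hbi]
    simp only [← mul_assoc, hb, one_mul]
  have h7 : R (Subgroup.zpowers (a * b)) (b * a * b * a * b * a) (b * a * b * b) := by
    rw [e1]
    unfold R
    rw [mul_inv_cancel_right]
    exact Subgroup.mem_zpowers _
  have h5' : R (Subgroup.zpowers (a * b)) (b * a * b * b * a) (b * a * b * a * b) := by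
    have h := (h7.mul a).symm
    rw [ha'] at h
    exact h
  -- the last relation
  have h10 : R (Subgroup.zpowers (a * b)) (b * a * b * a * b * b * a * b * a)
      (b * a * b * a * b * b * a * b * b) := by
    have s1 := (((h5'.mul b).mul a).mul b).mul a
    have s2 := s1.mul b
    have s3 : b * a * b * b * a * b * a * b * a * b = b * a * b * b * (a * b) ^ 3 := by
      simp only [pow_succ, pow_zero, one_mul, mul_assoc]
    rw [s3, h3, hai, hbi] at s2
    have s4 : b * a * b * b * (b * b * a * (b * b * a)) = b * a * b * a * b * b * a := by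
      simp only [← mul_assoc, hb']
    rw [s4] at s2
    have s5 := (s2.symm.mul b).mul b
    rw [hb'] at s5
    exact s5
  fin_cases i
  · exact R.of_eq _ (one_mul a)
  · exact R.of_eq _ ha
  · exact R.refl _ _
  · exact R.of_eq _ (ha' _)
  · exact R.refl _ _
  · exact h5'
  · exact R.of_eq _ (ha' _)
  · exact h7
  · exact R.refl _ _
  · exact R.of_eq _ (ha' _)
  · exact h10
  · have h := (h10.mul a).symm
    rw [ha'] at h
    exact h

theorem card_le [Finite G] (ha : a * a = 1) (hb : b * b * b = 1) (h5 : (a * b) ^ 5 = 1)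
    (hgen : Subgroup.closure {a, b} = ⊤) : Nat.card G ≤ 60 := by
  set K := Subgroup.zpowers (a * b) with hK
  let S : Set G := {x | ∃ i, R K x (rep a b i)}
  have h1 : (1 : G) ∈ S := ⟨0, R.refl _ _⟩
  have hcl : ∀ x ∈ Subgroup.closure {a, b}, ∀ y ∈ S, y * x ∈ S := by
    intro x hx
    induction hx using Subgroup.closure_induction with
    | mem x hx =>
      rintro y ⟨i, hi⟩
      rcases hx with rfl | hx
      · exact ⟨ta i, (hi.mul _).trans (aux_a ha hb h5 i)⟩
      · rw [Set.mem_singleton_iff] at hx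
        subst hx
        exact ⟨tb i, (hi.mul _).trans (aux_b hb i)⟩
    | one => intro y hy; rwa [mul_one]
    | mul x z _ _ hx hz =>
      intro y hy
      rw [← mul_assoc]
      exact hz _ (hx _ hy)
    | inv x _ hx =>
      intro y hy
      have hp : ∀ k : ℕ, ∀ y ∈ S, y * x ^ k ∈ S := by
        intro k
        induction k with
        | zero => intro y hy; rwa [pow_zero, mul_one]
        | succ k ih => intro y hy; rw [pow_succ, ← mul_assoc]; exact hx _ (ih _ hy)
      have hx' : x⁻¹ = x ^ (orderOf x - 1) := by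
        rw [inv_eq_iff_mul_eq_one, ← pow_succ', Nat.sub_add_cancel (orderOf_pos x),
          pow_orderOf_eq_one]
      rw [hx']
      exact hp _ y hy
  have hS : ∀ x : G, x ∈ S := by
    intro x
    have := hcl x (by rw [hgen]; trivial) 1 h1
    rwa [one_mul] at this
  have hKc : Nat.card K ≤ 5 := by
    rw [hK, Nat.card_zpowers]
    exact orderOf_le_of_pow_eq_one (by norm_num) h5
  let φ : K × Fin 12 → G := fun p => (p.1 : G) * rep a b p.2
  have hφ : Function.Surjective φ := by
    intro x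
    obtain ⟨i, hi⟩ := hS x
    exact ⟨(⟨_, hi⟩, i), by simp [φ]⟩
  have := Nat.card_le_card_of_surjective φ hφ
  rw [Nat.card_prod, Nat.card_eq_fintype_card (α := Fin 12), Fintype.card_fin] at this
  omega

end Bound

/-- The first generator of the alternating group of degree five. -/
def x5 : alternatingGroup (Fin 5) :=
  ⟨Equiv.swap 0 1 * Equiv.swap 2 3, Equiv.Perm.mem_alternatingGroup.mpr (by decide)⟩

/-- The second generator of the alternating group of degree five. -/
def y5 : alternatingGroup (Fin 5) :=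
  ⟨Equiv.swap 1 2 * Equiv.swap 2 4, Equiv.Perm.mem_alternatingGroup.mpr (by decide)⟩

theorem x5_pow : x5 ^ 2 = 1 := by decide
theorem y5_pow : y5 ^ 3 = 1 := by decide
theorem z5_pow : (x5 * y5) ^ 5 = 1 := by decide +kernel
theorem x5_ne : x5 ≠ 1 := by decide
theorem y5_ne : y5 ≠ 1 := by decide
theorem z5_ne : x5 * y5 ≠ 1 := by decide

theorem card_alt (n : ℕ) (hn : 3 ≤ n) : Nat.card (alternatingGroup (Fin n)) = n.factorial / 2 := by
  have : Nontrivial (Fin n) := Fin.nontrivial_iff_two_le.mpr (by omega)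
  rw [nat_card_alternatingGroup, Nat.card_eq_fintype_card, Fintype.card_fin]

theorem dvd_card_of {H : Subgroup (alternatingGroup (Fin 5))} {x : alternatingGroup (Fin 5)}
    {p : ℕ} (hp : p.Prime) (hx : x ∈ H) (h1 : x ^ p = 1) (h2 : x ≠ 1) : p ∣ Nat.card H := by
  have : orderOf (⟨x, hx⟩ : H) = p := by
    rw [Subgroup.orderOf_mk]
    have := Fact.mk hp
    exact orderOf_eq_prime h1 h2
  rw [← this]
  exact orderOf_dvd_natCard _

theorem closure_top : Subgroup.closure {x5, y5, (x5 * y5)⁻¹} = ⊤ := by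
  set H := Subgroup.closure {x5, y5, (x5 * y5)⁻¹} with hH
  have hx : x5 ∈ H := Subgroup.subset_closure (by simp)
  have hy : y5 ∈ H := Subgroup.subset_closure (by simp)
  have d2 : 2 ∣ Nat.card H := dvd_card_of Nat.prime_two hx x5_pow x5_ne
  have d3 : 3 ∣ Nat.card H := dvd_card_of Nat.prime_three hy y5_pow y5_ne
  have d5 : 5 ∣ Nat.card H := dvd_card_of Nat.prime_five (H.mul_mem hx hy) z5_pow z5_ne
  have h30 : 30 ∣ Nat.card H := by
    have h6 : 2 * 3 ∣ Nat.card H := Nat.Coprime.mul_dvd_of_dvd_of_dvd (by norm_num) d2 d3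
    have : 2 * 3 * 5 ∣ Nat.card H := Nat.Coprime.mul_dvd_of_dvd_of_dvd (by norm_num) h6 d5
    exact this
  have hG : Nat.card (alternatingGroup (Fin 5)) = 60 := by
    rw [card_alt 5 (by norm_num)]; rfl
  have hm := H.card_mul_index
  rw [hG] at hm
  obtain ⟨k, hk⟩ := h30
  rw [hk] at hm
  have hki : k * H.index = 2 := by
    have : 30 * (k * H.index) = 60 := by rw [← hm]; ring
    omega
  have hi : H.index ∣ 2 := ⟨k, by rw [← hki]; ring⟩
  have hi' : H.index = 1 ∨ H.index = 2 := (Nat.dvd_prime Nat.prime_two).mp hi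
  rcases hi' with h | h
  · exact Subgroup.index_eq_one.mp h
  · have := Subgroup.normal_of_index_eq_two h
    have := alternatingGroup.isSimpleGroup_five
    rcases IsSimpleGroup.eq_bot_or_eq_top_of_normal H inferInstance with h' | h'
    · exfalso
      rw [h', Subgroup.mem_bot] at hx
      exact x5_ne hx
    · exact h'

theorem lift_eq_one {G : Type*} [Group G] {ξ η ζ : G} (h1 : ξ ^ 2 = 1) (h2 : η ^ 3 = 1)
    (h3 : ζ ^ 5 = 1) {u : FreeGroup (Fin 3)}
    (hu : u ∈ Subgroup.normalClosure
      ({FreeGroup.of 0 ^ 2, FreeGroup.of 1 ^ 3, FreeGroup.of 2 ^ 5} : Set (FreeGroup (Fin 3)))) :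
    FreeGroup.lift ![ξ, η, ζ] u = 1 := by
  have : Subgroup.normalClosure
      ({FreeGroup.of 0 ^ 2, FreeGroup.of 1 ^ 3, FreeGroup.of 2 ^ 5} : Set (FreeGroup (Fin 3))) ≤
      (FreeGroup.lift ![ξ, η, ζ]).ker := by
    apply Subgroup.normalClosure_le_normal
    rintro x (rfl | rfl | rfl)
    · simp [MonoidHom.mem_ker, h1]
    · simp [MonoidHom.mem_ker, h2]
    · simp [MonoidHom.mem_ker, h3]
  exact this hu

theorem main (u : FreeGroup (Fin 3))
    (hu : u ∈ Subgroup.normalClosure
      ({FreeGroup.of 0 ^ 2, FreeGroup.of 1 ^ 3, FreeGroup.of 2 ^ 5} : Set (FreeGroup (Fin 3)))) :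
    {n : ℕ | 3 ≤ n ∧ Admissible 2 3 5 u n} = {5} := by
  apply Set.eq_singleton_iff_unique_mem.mpr
  constructor
  · refine ⟨by norm_num, x5, y5, (x5 * y5)⁻¹, closure_top, x5_pow, y5_pow, ?_, ?_⟩
    · rw [inv_pow, z5_pow, inv_one]
    · rw [lift_eq_one x5_pow y5_pow (by rw [inv_pow, z5_pow, inv_one]) hu, mul_one,
        mul_inv_cancel]
  · rintro n ⟨hn, ξ, η, ζ, hgen, h1, h2, h3, h4⟩
    rw [lift_eq_one h1 h2 h3 hu, mul_one] at h4
    have hz : ζ = (ξ * η)⁻¹ := eq_inv_of_mul_eq_one_right h4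
    have h5 : (ξ * η) ^ 5 = 1 := by
      rw [hz, inv_pow, inv_eq_one] at h3
      exact h3
    have hgen' : Subgroup.closure {ξ, η} = ⊤ := by
      rw [eq_top_iff, ← hgen, Subgroup.closure_le]
      rintro x (rfl | rfl | rfl)
      · exact Subgroup.subset_closure (by simp)
      · exact Subgroup.subset_closure (by simp)
      · rw [hz]
        exact (Subgroup.closure _).inv_mem ((Subgroup.closure _).mul_mem
          (Subgroup.subset_closure (by simp)) (Subgroup.subset_closure (by simp)))
    have ha : ξ * ξ = 1 := by rw [← pow_two]; exact h1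
    have hb : η * η * η = 1 := by rw [← pow_two, ← pow_succ]; exact h2
    have hc := card_le ha hb h5 hgen'
    rw [card_alt n hn] at hc
    have hn5 : n ≤ 5 := by
      by_contra hlt
      have h6 : 6 ≤ n := by omega
      have := Nat.factorial_le h6
      have h720 : Nat.factorial 6 = 720 := rfl
      omega
    by_contra hne
    have hn4 : n = 3 ∨ n = 4 := by omega
    have hcop : Nat.Coprime 5 (Nat.card (alternatingGroup (Fin n))) := by
      rw [card_alt n hn]
      rcases hn4 with rfl | rfl <;> decide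
    have h6 : ξ * η = 1 := by
      have ho1 : orderOf (ξ * η) ∣ 5 := orderOf_dvd_of_pow_eq_one h5
      have ho2 : orderOf (ξ * η) ∣ Nat.card (alternatingGroup (Fin n)) := orderOf_dvd_natCard _
      have := Nat.dvd_gcd ho1 ho2
      rw [hcop] at this
      exact orderOf_eq_one_iff.mp (Nat.dvd_one.mp this)
    have hξ : ξ = η⁻¹ := eq_inv_of_mul_eq_one_left h6
    have h7 : η ^ 2 = 1 := by
      rw [hξ, inv_pow, inv_eq_one] at h1
      exact h1
    have h8 : η = 1 := by
      rw [pow_succ, h7, one_mul] at h2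
      exact h2
    have h9 : ξ = 1 := by rw [hξ, h8, inv_one]
    rw [h8, h9] at hgen'
    have h10 : (⊤ : Subgroup (alternatingGroup (Fin n))) = ⊥ := by
      rw [← hgen', Subgroup.closure_eq_bot_iff]
      simp
    have h11 : Nat.card (alternatingGroup (Fin n)) = 1 := by
      have := Subgroup.card_top (G := alternatingGroup (Fin n))
      rw [h10, Subgroup.card_bot] at this
      exact this.symm
    rw [card_alt n hn] at h11
    rcases hn4 with rfl | rfl <;> simp [Nat.factorial] at h11

/-- For `p, q, r = 2, 3, 5` and every commutator word that is trivial in the free product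
`C_2 * C_3 * C_5`, in particular for `u = 1`, the only admissible `n` is `5`. -/
theorem result :
    (∃ p q r : ℕ, p.Prime ∧ q.Prime ∧ r.Prime ∧ p ≠ q ∧ q ≠ r ∧ p ≠ r ∧
      ∃ u ∈ commutator (FreeGroup (Fin 3)), {n : ℕ | 3 ≤ n ∧ Admissible p q r u n}.Finite) ∧
    ∀ u ∈ commutator (FreeGroup (Fin 3)),
      u ∈ Subgroup.normalClosure
        ({FreeGroup.of 0 ^ 2, FreeGroup.of 1 ^ 3, FreeGroup.of 2 ^ 5} : Set (FreeGroup (Fin 3))) →
      {n : ℕ | 3 ≤ n ∧ Admissible 2 3 5 u n} = {5} := by
  refine ⟨⟨2, 3, 5, Nat.prime_two, Nat.prime_three, Nat.prime_five, by norm_num, by norm_num,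
    by norm_num, 1, Subgroup.one_mem _, ?_⟩, fun u _ hu => main u hu⟩
  rw [main 1 (Subgroup.one_mem _)]
  exact Set.finite_singleton 5

end Pool.Agent.Results.MP_73c65d_al.OnlyFive
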